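import Pool.Agent.helper37.ND.Spec

/-!
# MP_baa4d7_al, project ND, row GOB: orbits
-/

set_option autoImplicit false

namespace Pool.Agent.ND

open Pool.Agent.helper58.DC Pool.Agent.DI Pool.Agent.GR Pool.Agent.OB Pool.Agent.DR Pool.Agent.FI Pool.Agent.FI3 Pool.Agent.FI4 Pool.Agent.FI4I Pool.Agent.LE Pool.Agent.L5 Pool.Agent.NAB

theorem GOB_mul {p e t : ℕ} (hp : p.Prime) (hZLM : ZLM_stmt) {G : Type} [Group G] [Finite G] (hT : Tx p e t G)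
    (Z : Subgroup G) (ν ν' : Z →* ℂˣ) (θ : G → ℂ) : st Z t ν (st Z t ν' θ) = st Z t (ν * ν') θ := by
  obtain ⟨-, ⟨h1, -⟩, -⟩ := hZLM p e t hp G hT Z ν
  funext g
  show lam Z t ν g * (lam Z t ν' g * θ g) = lam Z t (ν * ν') g * θ g
  rw [h1, mul_assoc]

theorem GOB_one {p e t : ℕ} (hp : p.Prime) (hZLM : ZLM_stmt) {G : Type} [Group G] [Finite G] (hT : Tx p e t G)
    (Z : Subgroup G) (θ : G → ℂ) : st Z t (1 : Z →* ℂˣ) θ = θ := by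
  obtain ⟨-, ⟨-, h1⟩, -⟩ := hZLM p e t hp G hT Z 1
  funext g
  show lam Z t (1 : Z →* ℂˣ) g * θ g = θ g
  rw [h1, one_mul]

theorem GOB (hZLM : ZLM_stmt) : GOB_stmt := by
  intro p e t hp G _ _ hT Z
  refine ⟨fun θ => ⟨1, (GOB_one hp hZLM hT Z θ).symm⟩, ?_, ?_, ?_⟩
  · rintro θ _ ⟨ν, rfl⟩
    refine ⟨ν⁻¹, ?_⟩
    have h1 : ν⁻¹ * ν = 1 := MonoidHom.ext fun x => inv_mul_cancel (ν x)
    rw [GOB_mul hp hZLM hT, h1, GOB_one hp hZLM hT]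
  · rintro θ _ _ ⟨ν, rfl⟩ ⟨ν', rfl⟩
    exact ⟨ν' * ν, GOB_mul hp hZLM hT Z ν' ν θ⟩
  · rintro n hn θ _ ⟨ν, rfl⟩
    obtain ⟨-, -, -, h4, -⟩ := hZLM p e t hp G hT Z ν
    obtain ⟨ν', -, -, h5⟩ := h4 n hn
    exact ⟨ν', h5 θ⟩

end Pool.Agent.ND
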